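import Pool.Agent.helper78.WB.SpecIII

/-! Row BAD of project wb, Part III (MP_bb5cc8_nt). -/

set_option autoImplicit false

namespace Pool.Agent.WB

open MvPolynomial

theorem BAD (h1 : LZ_stmt) (h2 : PNZ_stmt) (h3 : VALP_stmt) (h4 : VALC_stmt) (h5 : PIG_stmt)
    (h6 : SIZE_stmt) (h7 : BZ_stmt) : BAD_stmt := by
  classical
  intro N d k m p hp hhom hkd hm hdm hs3 LL hLL hprod V hNP hV hord
  have hd : 1 ≤ d := by omega
  rcases V.eq_empty_or_nonempty with hVe | ⟨ζ₀, hζ₀⟩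
  · rw [hVe, Finset.card_empty]; exact Nat.zero_le _
  have hN : 1 ≤ N := by
    obtain ⟨g1, g2, _⟩ := hV ζ₀ hζ₀
    by_contra hcon
    have hN0 : N = 0 := by omega
    apply g1
    funext i
    have g3 := g2 i
    rw [hN0] at g3
    simp only [Nat.cast_zero, abs_nonpos_iff] at g3
    exact g3
  set s := s3 k with hsdef
  have hs1 : 1 ≤ s := by
    rw [hsdef]
    unfold s3
    have : 2 ≤ (k + 1) * (k + 2) := by nlinarith
    omega
  set Λ := ∏ ℓ ∈ LL, ℓ with hΛdef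
  have hΛ : 0 < Λ := Finset.prod_pos (fun ℓ hℓ => (hLL ℓ hℓ).pos)
  -- value sets modulo the primes
  have hval : ∀ ℓ ∈ LL, (valSet k ℓ V).ncard ≤ ℓ ^ (s - 1) := by
    intro ℓ hℓ
    have : Fact ℓ.Prime := ⟨hLL ℓ hℓ⟩
    have hf0 : redp ℓ p ≠ 0 := h2 ℓ (hLL ℓ hℓ) d p hp hhom hd
    have hfh : (redp ℓ p).IsHomogeneous d := by
      unfold redp
      exact hhom.map _
    by_contra hcon
    have hZ : ∀ g : MvPolynomial (Fin 3) (ZMod ℓ), g.IsHomogeneous k →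
        (∀ ζ ∈ V.image (redv ℓ), eval ζ g = 0) → g = 0 := by
      intro g hg hgz
      by_contra hg0
      apply hcon
      refine h3 ℓ k V g hg0 hg ?_
      intro ζ hζ
      exact hgz _ (Finset.mem_image_of_mem _ hζ)
    have h8 := h1 (ZMod ℓ) (redp ℓ p) d k m hfh hf0 hm hdm (V.image (redv ℓ)) ?_ hZ
    · rw [← hsdef] at h8
      omega
    · intro z hz
      obtain ⟨ζ, hζ, rfl⟩ := Finset.mem_image.1 hz
      obtain ⟨j, hj, ho⟩ := hord ℓ hℓ ζ hζ
      refine ⟨j, ?_, ho⟩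
      intro h0
      apply hj
      exact (ZMod.intCast_zmod_eq_zero_iff_dvd (ζ j) ℓ).1 h0
  have hvalΛ : (valSet k Λ V).ncard ≤ Λ ^ (s - 1) := by
    refine (h4 k V LL hLL).trans ?_
    rw [hΛdef, ← Finset.prod_pow]
    exact Finset.prod_le_prod' hval
  set B := s * N ^ k with hBdef
  have hB : 1 ≤ B := Nat.mul_pos hs1 (pow_pos hN k)
  set H := (Λ - 1) / B with hHdef
  have hHB : Λ ≤ B * (H + 1) := by
    have h8 := Nat.lt_mul_div_succ (Λ - 1) (show 0 < B from hB)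
    rw [← hHdef] at h8
    omega
  have hcount : (valSet k Λ V).ncard < (H + 1) ^ s := by
    refine lt_of_le_of_lt hvalΛ ?_
    have h8 : Λ ^ (s - 1) * B ^ s < (H + 1) ^ s * B ^ s := by
      calc Λ ^ (s - 1) * B ^ s < Λ ^ (s - 1) * Λ :=
            Nat.mul_lt_mul_of_pos_left hprod (pow_pos hΛ _)
        _ = Λ ^ s := by
            rw [← pow_succ]
            congr 1
            omega
        _ ≤ (B * (H + 1)) ^ s := Nat.pow_le_pow_left hHB s
        _ = (H + 1) ^ s * B ^ s := by rw [mul_pow, mul_comm]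
    exact lt_of_mul_lt_mul_right h8 (Nat.zero_le _)
  obtain ⟨Q, hQ0, hQh, hQc, hQd⟩ := h5 k Λ H V hΛ hcount
  have hQz : ∀ ζ ∈ V, eval ζ Q = 0 := by
    intro ζ hζ
    have h8 := h6 k H N Q ζ hQh hQc (hV ζ hζ).2.1
    apply Int.eq_zero_of_abs_lt_dvd (hQd ζ hζ)
    refine lt_of_le_of_lt h8 ?_
    have h9 : B * H ≤ Λ - 1 := Nat.mul_div_le _ _
    have h10 : s * H * N ^ k = B * H := by rw [hBdef]; ring
    have h11 : s * H * N ^ k < Λ := by omega
    exact_mod_cast h11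
  have hndvd : ¬ p ∣ Q := by
    rintro ⟨r, rfl⟩
    have hp0 : p ≠ 0 := hp.ne_zero
    have hr0 : r ≠ 0 := right_ne_zero_of_mul hQ0
    have h8 := hQh.totalDegree hQ0
    rw [totalDegree_mul_of_isDomain hp0 hr0, hhom.totalDegree hp0] at h8
    omega
  exact h7 p Q d k hp hhom hd hQh hndvd V hNP
    (fun ζ hζ => ⟨(hV ζ hζ).1, (hV ζ hζ).2.2, hQz ζ hζ⟩)

end Pool.Agent.WB
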