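import Pool.Agent.helper75.WB.SpecI

/-! Row wb:I.IPG (dyadic pigeonhole), MP_bb5cc8_nt. -/

set_option autoImplicit false

namespace Pool.Agent.WB

open Finset

theorem IPG : IPG_stmt := by
  classical
  intro U f F hf
  rcases U.eq_empty_or_nonempty with rfl | hU
  · exact ⟨1, le_rfl, by simp, by simp⟩
  by_contra hcon
  have key : ∀ r : ℕ, 1 ≤ r → ∑ n ∈ U, f n ≤ 4 * r * U.card →
      4 * (Nat.log 2 F + 1) * ((U.filter (fun n => r ≤ f n ∧ f n < 2 * r)).card * r) <
        ∑ n ∈ U, f n := by
    intro r h1 h2
    by_contra h3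
    exact hcon ⟨r, h1, h2, not_lt.1 h3⟩
  obtain ⟨I, hI⟩ : ∃ I, I = ∑ n ∈ U, f n := ⟨_, rfl⟩
  obtain ⟨L, hL⟩ : ∃ L, L = Nat.log 2 F + 1 := ⟨_, rfl⟩
  rw [← hI, ← hL] at key
  have hUc : 0 < U.card := card_pos.2 hU
  have hIpos : 0 < I := by
    rw [hI]
    obtain ⟨n, hn⟩ := hU
    exact lt_of_lt_of_le (hf n hn).1 (single_le_sum (fun _ _ => Nat.zero_le _) hn)
  have hLpos : 0 < L := by omega
  let g : ℕ → Prop := fun n => I ≤ 4 * 2 ^ Nat.log 2 (f n) * U.card
  have hlog : ∀ n ∈ U, 2 ^ Nat.log 2 (f n) ≤ f n ∧ f n < 2 * 2 ^ Nat.log 2 (f n) := by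
    intro n hn
    have h1 := (hf n hn).1
    refine ⟨Nat.pow_log_le_self 2 (by omega), ?_⟩
    have h2 := Nat.lt_pow_succ_log_self (b := 2) (by norm_num) (f n)
    rw [pow_succ] at h2
    linarith
  -- the bad part
  have hA : ∑ n ∈ U.filter (fun n => ¬ g n), 2 * f n ≤ I := by
    have h1 : (∑ n ∈ U.filter (fun n => ¬ g n), 2 * f n) * U.card ≤ I * U.card := by
      rw [sum_mul]
      calc ∑ n ∈ U.filter (fun n => ¬ g n), 2 * f n * U.card
          ≤ ∑ n ∈ U.filter (fun n => ¬ g n), I := by
            apply sum_le_sum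
            intro n hn
            obtain ⟨h2, h3⟩ := mem_filter.1 hn
            have h4 : 4 * 2 ^ Nat.log 2 (f n) * U.card < I := not_le.1 h3
            have h5 := (hlog n h2).2
            have h6 : 2 * f n * U.card ≤ 4 * 2 ^ Nat.log 2 (f n) * U.card :=
              Nat.mul_le_mul_right _ (by omega)
            omega
        _ = (U.filter (fun n => ¬ g n)).card * I := by rw [sum_const, smul_eq_mul]
        _ ≤ U.card * I := Nat.mul_le_mul_right _ (card_filter_le _ _)
        _ = I * U.card := mul_comm _ _
    exact Nat.le_of_mul_le_mul_right h1 hUc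
  -- the good part
  have hB : L * ∑ n ∈ U.filter g, 2 * f n < L * I := by
    have hmap : ∀ n ∈ U.filter g, Nat.log 2 (f n) ∈ range L := by
      intro n hn
      have h1 := (hf n (mem_filter.1 hn).1).2
      rw [mem_range, hL]
      have := Nat.log_mono_right (b := 2) h1
      omega
    rw [← sum_fiberwise_of_maps_to hmap, mul_sum]
    calc ∑ k ∈ range L, L * ∑ n ∈ (U.filter g).filter (fun n => Nat.log 2 (f n) = k), 2 * f n
        < ∑ k ∈ range L, I := by
          apply sum_lt_sum_of_nonempty (nonempty_range_iff.2 hLpos.ne')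
          intro k _
          rcases ((U.filter g).filter (fun n => Nat.log 2 (f n) = k)).eq_empty_or_nonempty with
            h1 | ⟨n₀, hn₀⟩
          · rw [h1, sum_empty, mul_zero]; exact hIpos
          · obtain ⟨h2, h3⟩ := mem_filter.1 hn₀
            obtain ⟨_, h4⟩ := mem_filter.1 h2
            have h5 : I ≤ 4 * 2 ^ k * U.card := by rw [← h3]; exact h4
            have h6 := key (2 ^ k) Nat.one_le_two_pow h5
            have h7 : ∑ n ∈ (U.filter g).filter (fun n => Nat.log 2 (f n) = k), 2 * f n ≤
                (U.filter (fun n => 2 ^ k ≤ f n ∧ f n < 2 * 2 ^ k)).card * (4 * 2 ^ k) := by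
              calc ∑ n ∈ (U.filter g).filter (fun n => Nat.log 2 (f n) = k), 2 * f n
                  ≤ ∑ n ∈ (U.filter g).filter (fun n => Nat.log 2 (f n) = k), 4 * 2 ^ k := by
                    apply sum_le_sum
                    intro n hn
                    obtain ⟨h8, h9⟩ := mem_filter.1 hn
                    have h10 := (hlog n (mem_filter.1 h8).1).2
                    rw [h9] at h10
                    omega
                _ = ((U.filter g).filter (fun n => Nat.log 2 (f n) = k)).card * (4 * 2 ^ k) := by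
                    rw [sum_const, smul_eq_mul]
                _ ≤ _ := by
                    apply Nat.mul_le_mul_right
                    apply card_le_card
                    intro n hn
                    obtain ⟨h8, h9⟩ := mem_filter.1 hn
                    have h10 := hlog n (mem_filter.1 h8).1
                    rw [h9] at h10
                    exact mem_filter.2 ⟨(mem_filter.1 h8).1, h10⟩
            calc L * ∑ n ∈ (U.filter g).filter (fun n => Nat.log 2 (f n) = k), 2 * f n
                ≤ L * ((U.filter (fun n => 2 ^ k ≤ f n ∧ f n < 2 * 2 ^ k)).card * (4 * 2 ^ k)) :=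
                  Nat.mul_le_mul_left _ h7
              _ = 4 * L * ((U.filter (fun n => 2 ^ k ≤ f n ∧ f n < 2 * 2 ^ k)).card * 2 ^ k) := by
                  ring
              _ < I := h6
      _ = L * I := by rw [sum_const, card_range, smul_eq_mul]
  have hsplit : ∑ n ∈ U.filter g, 2 * f n + ∑ n ∈ U.filter (fun n => ¬ g n), 2 * f n = 2 * I := by
    rw [sum_filter_add_sum_filter_not, ← mul_sum, hI]
  have h1 : ∑ n ∈ U.filter g, 2 * f n < I := Nat.lt_of_mul_lt_mul_left hB
  omega

end Pool.Agent.WB
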